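import Mathlib
import Pool.Agent.H14.Interp

set_option autoImplicit false
open MeasureTheory
open scoped ENNReal

namespace Pool.Agent.Results.MP_37b4fc_an.Complex

open Pool.Agent.H14.Interp in
theorem result :
    ¬ (∀ (E0 E1 F0 F1 : Type)
      [NormedAddCommGroup E0] [NormedSpace ℂ E0] [CompleteSpace E0]
      [NormedAddCommGroup E1] [NormedSpace ℂ E1] [CompleteSpace E1]
      [NormedAddCommGroup F0] [NormedSpace ℂ F0] [CompleteSpace F0]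
      [NormedAddCommGroup F1] [NormedSpace ℂ F1] [CompleteSpace F1]
      (ιA : E1 →L[ℂ] E0) (ιB : F1 →L[ℂ] F0),
      Function.Injective ιA → Function.Injective ιB →
      ∀ (U : E0 → F0) (V : E1 → F1) (M0 M1 : ℝ),
        (∀ a b : E0, ‖U a - U b‖ ≤ M0 * ‖a - b‖) →
        (∀ x : E1, U (ιA x) = ιB (V x)) →
        (∀ x : E1, ‖V x‖ ≤ M1 * ‖x‖) →
        Continuous V →
        ∀ θ : ℝ, 0 < θ → θ < 1 → ∀ p : ℝ≥0∞, 1 ≤ p →
        ∀ a : E0,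
          eLpNorm (fun t : ℝ => t ^ (-θ) * ⨅ y : E1, (‖a - ιA y‖ + t * ‖y‖)) p
            ((volume.restrict (Set.Ioi (0:ℝ))).withDensity (fun t => ENNReal.ofReal t⁻¹)) < ∞ →
          ∀ ε : ℝ≥0∞, 0 < ε → ∃ δ : ℝ≥0∞, 0 < δ ∧ ∀ b : E0,
            eLpNorm (fun t : ℝ => t ^ (-θ) * ⨅ y : E1, (‖b - ιA y‖ + t * ‖y‖)) p
              ((volume.restrict (Set.Ioi (0:ℝ))).withDensity (fun t => ENNReal.ofReal t⁻¹)) < ∞ →
            eLpNorm (fun t : ℝ => t ^ (-θ) * ⨅ y : E1, (‖(b - a) - ιA y‖ + t * ‖y‖)) p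
              ((volume.restrict (Set.Ioi (0:ℝ))).withDensity (fun t => ENNReal.ofReal t⁻¹)) < δ →
            eLpNorm (fun t : ℝ => t ^ (-θ) * ⨅ z : F1, (‖(U b - U a) - ιB z‖ + t * ‖z‖)) p
              ((volume.restrict (Set.Ioi (0:ℝ))).withDensity (fun t => ENNReal.ofReal t⁻¹)) < ε) := by
  intro h
  obtain ⟨δ, hδ, h2⟩ := h (E0 ℂ) (E1 ℂ) (B ℂ) (B ℂ) (iA ℂ) (J ℂ) (iA_inj ℂ) (J_inj ℂ) (U ℂ) (V ℂ)
    1 1 (U_lip ℂ) (U_iA ℂ) (V_bound ℂ) (V_cont ℂ) (1 / 2) (by norm_num) (by norm_num) ∞ le_top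
    (xs ℂ, 0) (K_point ℂ 0 (by simp)) (ENNReal.ofReal (1 / 2)) (by simp)
  obtain ⟨m, h3, h4⟩ := discont ℂ δ hδ
  exact absurd (h2 _ (K_point ℂ _ h3) ((K_diff ℂ _).trans_lt h4)) (not_lt.2 (K_image ℂ m))

end Pool.Agent.Results.MP_37b4fc_an.Complex
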